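import Pool.Agent.E8helper49.PC.Stm

/-!
# Project PC, piece THR2
-/

set_option autoImplicit false

namespace Pool.Agent.E8helper90.PC

open NumberField Ideal Pool.Agent.E8helper49.PC
open scoped Pointwise

/-- a prime of `Ω` above an unramified prime above `3`, with an automorphism over `F` -/
theorem exists_tau {M : Finset ℕ} {Ω : Type} [Field Ω] [NumberField Ω]
    (hT : S_THR1) (hM : ∀ l ∈ M, l.Prime ∧ l % 9 = 1) (hΩ : Clo M Ω) [IsGalois ℚ Ω]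
    {F : Type} [Field F] [NumberField F] [Algebra F Ω] [IsGalois F Ω]
    (hex : ∃ x : Ω, x ^ 2 + x + 1 = 0)
    (P : Ideal (𝓞 F)) (hP : P.IsPrime) (h3 : (3 : 𝓞 F) ∈ P) (he : P.ramificationIdx ℤ = 1) :
    ∃ (R : Ideal (𝓞 Ω)), R.IsPrime ∧ (3 : 𝓞 Ω) ∈ R ∧ R.under (𝓞 F) = P ∧
      ∃ τ : Ω ≃ₐ[F] Ω, τ ≠ 1 ∧ τ • R = R := by
  obtain ⟨⟨R, hR, hRP⟩⟩ := (inferInstance : Nonempty (primesOver P (𝓞 Ω)))
  have hund : R.under (𝓞 F) = P := ((liesOver_iff R P).1 hRP).symm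
  have h3R : (3 : 𝓞 Ω) ∈ R := by
    have h : (3 : 𝓞 F) ∈ R.under (𝓞 F) := by rw [hund]; exact h3
    rw [under_def, mem_comap, map_ofNat] at h
    exact h
  have hF := hT M Ω hM hΩ F ⟨algebraMap F Ω⟩ P hP h3
  have hO := hT M Ω hM hΩ Ω ⟨RingHom.id Ω⟩ R hR h3R
  have e1 := ramificationIdx_tower (R := ℤ) P R
  have e2 := inertiaDeg_tower (R := ℤ) P R
  rw [he, hO.2.2 hex, one_mul] at e1
  rw [hF.1, hO.1, one_mul] at e2
  have hc : Nat.card (MulAction.stabilizer (Ω ≃ₐ[F] Ω) R) = 2 := by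
    have h1 := ncard_primesOver_mul_ramificationIdxIn_mul_inertiaDegIn P (𝓞 Ω) (Ω ≃ₐ[F] Ω)
    rw [ramificationIdxIn_eq_ramificationIdx P R (Ω ≃ₐ[F] Ω),
      inertiaDegIn_eq_inertiaDeg P R (Ω ≃ₐ[F] Ω), ← e1, ← e2, mul_one] at h1
    have h2 : (P.primesOver (𝓞 Ω)).ncard * Nat.card (MulAction.stabilizer (Ω ≃ₐ[F] Ω) R) =
        Nat.card (Ω ≃ₐ[F] Ω) := by
      rw [← Algebra.IsInvariant.orbit_eq_primesOver (𝓞 F) (𝓞 Ω) (Ω ≃ₐ[F] Ω) P R]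
      simpa using Nat.card_congr (MulAction.orbitProdStabilizerEquivGroup (Ω ≃ₐ[F] Ω) R)
    have h4 : 0 < Nat.card (Ω ≃ₐ[F] Ω) := Nat.card_pos
    have h5 : (P.primesOver (𝓞 Ω)).ncard ≠ 0 := by
      intro h
      rw [h, zero_mul] at h1
      omega
    exact Nat.eq_of_mul_eq_mul_left (Nat.pos_of_ne_zero h5) (h2.trans h1.symm)
  refine ⟨R, hR, h3R, hund, ?_⟩
  by_contra hno
  have hsub : Subsingleton (MulAction.stabilizer (Ω ≃ₐ[F] Ω) R) := by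
    refine ⟨fun a b => ?_⟩
    have key : ∀ a : MulAction.stabilizer (Ω ≃ₐ[F] Ω) R, a.1 = 1 := by
      intro a
      by_contra ha
      exact hno ⟨a.1, ha, MulAction.mem_stabilizer_iff.1 a.2⟩
    exact Subtype.ext ((key a).trans (key b).symm)
  have h6 := Finite.card_le_one_iff_subsingleton.2 hsub
  omega

theorem t_THR2 : S_GRP → S_INV → S_SPLIT → S_THR1 → S_THR2 := by
  intro hG hI hS hT M Ω _ _ hM hΩ F _ _ hf P Q hP h3P hQ h3Q heP heQ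
  obtain ⟨f⟩ := hf
  obtain ⟨hgal, hω⟩ := hG M Ω (fun l hl => (hM l hl).1.pos) hΩ
  obtain ⟨ω, hω0⟩ : ∃ ω : Ω, ω ^ 2 + ω + 1 = 0 := by
    obtain ⟨ω, r, h, -⟩ := hΩ
    exact ⟨ω, h⟩
  obtain ⟨h1, h2, -⟩ := hω ω hω0
  let _ : Algebra F Ω := f.toAlgebra
  have : IsGalois F Ω := IsGalois.tower_top_of_isGalois ℚ F Ω
  have hdich : ∀ σ : Ω ≃ₐ[ℚ] Ω, σ ω ≠ ω → σ ω = -1 - ω := by
    intro σ hσ
    have e : σ ω ^ 2 + σ ω + 1 = 0 := by
      have := congrArg σ hω0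
      simpa using this
    have e2 : (σ ω - ω) * (σ ω + ω + 1) = 0 := by linear_combination e - hω0
    rcases mul_eq_zero.1 e2 with h | h
    · exact absurd (sub_eq_zero.1 h) hσ
    · linear_combination h
  let N : Subgroup (Ω ≃ₐ[ℚ] Ω) := MulAction.stabilizer (Ω ≃ₐ[ℚ] Ω) ω
  have hN : ∀ σ : Ω ≃ₐ[ℚ] Ω, σ ∈ N ↔ σ ω = ω := fun σ => MulAction.mem_stabilizer_iff
  have hNN : ∀ g h : Ω ≃ₐ[ℚ] Ω, g ∉ N → h ∉ N → g * h ∈ N := by
    intro g h hg hh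
    rw [hN] at hg hh ⊢
    have a := hdich g hg
    have b := hdich h hh
    rw [AlgEquiv.mul_apply, b, map_sub, map_neg, map_one, a]
    ring
  obtain ⟨i1, i2⟩ := hI (Ω ≃ₐ[ℚ] Ω) N (fun g hg => h1 g (fun h => hg ((hN g).2 h)))
    (fun g hg => h2 g ((hN g).1 hg)) hNN
  -- the decomposition groups
  have hsplit : ∀ (R : Ideal (𝓞 Ω)), R.IsPrime → (3 : 𝓞 Ω) ∈ R → ∀ σ : Ω ≃ₐ[ℚ] Ω, σ • R = R →
      σ ω = ω → σ = 1 := by
    intro R hR h3 σ hσ hσω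
    refine hS M Ω hM hΩ ω hω0 R hR h3 σ (fun x y hxy hx => ?_) hσω
    have e : y = σ • x := RingOfIntegers.ext hxy
    rw [e, ← hσ]
    exact smul_mem_pointwise_smul_iff.2 hx
  obtain ⟨R1, hR1, h31, hu1, τ1, hτ1, hs1⟩ := exists_tau hT hM hΩ ⟨ω, hω0⟩ P hP h3P heP
  obtain ⟨R2, hR2, h32, hu2, τ2, hτ2, hs2⟩ := exists_tau hT hM hΩ ⟨ω, hω0⟩ Q hQ h3Q heQ
  obtain ⟨t1, ht1⟩ : ∃ t1 : Ω ≃ₐ[ℚ] Ω, t1 = τ1.restrictScalars ℚ := ⟨_, rfl⟩
  obtain ⟨t2, ht2⟩ : ∃ t2 : Ω ≃ₐ[ℚ] Ω, t2 = τ2.restrictScalars ℚ := ⟨_, rfl⟩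
  have s1 : t1 • R1 = R1 := by rw [ht1]; exact hs1
  have s2 : t2 • R2 = R2 := by rw [ht2]; exact hs2
  have fix1 : ∀ a : 𝓞 F, t1 • (algebraMap (𝓞 F) (𝓞 Ω) a) = algebraMap (𝓞 F) (𝓞 Ω) a := by
    intro a
    refine RingOfIntegers.ext ?_
    rw [ht1]
    exact τ1.commutes (a : F)
  have fix2 : ∀ a : 𝓞 F, t2 • (algebraMap (𝓞 F) (𝓞 Ω) a) = algebraMap (𝓞 F) (𝓞 Ω) a := by
    intro a
    refine RingOfIntegers.ext ?_
    rw [ht2]
    exact τ2.commutes (a : F)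
  have n1 : t1 ∉ N := by
    intro h
    have e := hsplit R1 hR1 h31 t1 s1 ((hN t1).1 h)
    refine hτ1 (AlgEquiv.ext fun x => ?_)
    have e2 := DFunLike.congr_fun e x
    rw [ht1] at e2
    exact e2
  have n2 : t2 ∉ N := by
    intro h
    have e := hsplit R2 hR2 h32 t2 s2 ((hN t2).1 h)
    refine hτ2 (AlgEquiv.ext fun x => ?_)
    have e2 := DFunLike.congr_fun e x
    rw [ht2] at e2
    exact e2
  -- move `R1`
  obtain ⟨h, hh⟩ : ∃ h : Ω ≃ₐ[ℚ] Ω, h = t1 * t2 := ⟨_, rfl⟩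
  have hconj : h * t1 * h⁻¹ = t2 := by rw [hh]; exact i2 t1 t2 n1 n2
  have hcomm : t2 * h = h * t1 := by rw [← hconj]; group
  have s1' : t2 • (h • R1) = h • R1 := by
    rw [smul_smul, hcomm, ← smul_smul, s1]
  have hR1' : (h • R1).IsPrime := inferInstance
  have mem1 : ∀ a : 𝓞 F, a ∈ P ↔ algebraMap (𝓞 F) (𝓞 Ω) a ∈ h • R1 := by
    intro a
    have e : h • (algebraMap (𝓞 F) (𝓞 Ω) a) = algebraMap (𝓞 F) (𝓞 Ω) a := by
      rw [hh, ← smul_smul, fix2, fix1]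
    rw [← e, smul_mem_pointwise_smul_iff, ← hu1, under_def, mem_comap]
  have mem2 : ∀ a : 𝓞 F, a ∈ Q ↔ algebraMap (𝓞 F) (𝓞 Ω) a ∈ R2 := by
    intro a
    rw [← hu2, under_def, mem_comap]
  have h31' : (3 : 𝓞 Ω) ∈ h • R1 := by
    have e := (mem1 3).1 h3P
    rwa [map_ofNat] at e
  have lies : ∀ R : Ideal (𝓞 Ω), R.IsPrime → (3 : 𝓞 Ω) ∈ R → R.LiesOver (span {(3 : ℤ)}) := by
    intro R hR h3
    have hmax : (span {(3 : ℤ)}).IsMaximal := Int.ideal_span_isMaximal_of_prime 3 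
    refine ⟨hmax.eq_of_le ?_ ?_⟩
    · have : (R.under ℤ).IsPrime := inferInstance
      exact this.ne_top
    · rw [span_singleton_le_iff_mem, under_def, mem_comap, map_ofNat]
      exact h3
  have := lies _ hR1' h31'
  have := lies _ hR2 h32
  obtain ⟨g, hg⟩ := exists_smul_eq_of_isGaloisGroup (span {(3 : ℤ)}) (h • R1) R2 (Ω ≃ₐ[ℚ] Ω)
  -- `g` commutes with `t2`
  have su : (g * t2 * g⁻¹) • R2 = R2 := by
    rw [← hg, smul_smul]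
    have e : g * t2 * g⁻¹ * g = g * t2 := by group
    rw [e, ← smul_smul, s1']
  have nu : g * t2 * g⁻¹ ∉ N := by
    intro hu
    rw [hN] at hu
    have e : t2 (g⁻¹ ω) = g⁻¹ ω := by
      have e2 := congrArg (g⁻¹ : Ω ≃ₐ[ℚ] Ω) hu
      rw [← AlgEquiv.mul_apply] at e2
      have e3 : g⁻¹ * (g * t2 * g⁻¹) = t2 * g⁻¹ := by group
      rw [e3, AlgEquiv.mul_apply] at e2
      exact e2
    have n2' : ¬ t2 ω = ω := fun h => n2 ((hN t2).2 h)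
    by_cases hgi : (g⁻¹ : Ω ≃ₐ[ℚ] Ω) ω = ω
    · rw [hgi] at e
      exact n2' e
    · rw [hdich _ hgi, map_sub, map_neg, map_one] at e
      exact n2' (by linear_combination -e)
  have hprod : g * t2 * g⁻¹ * t2 = 1 := by
    refine hsplit R2 hR2 h32 _ ?_ ((hN _).1 (hNN _ _ nu n2))
    rw [← smul_smul, s2, su]
  have hsq : t2 * t2 = 1 := h1 t2 (fun h => n2 ((hN t2).2 h))
  have hgc : g * t2 = t2 * g := by
    have e : g * t2 * g⁻¹ = t2 := by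
      calc g * t2 * g⁻¹ = g * t2 * g⁻¹ * (t2 * t2) := by rw [hsq, mul_one]
        _ = (g * t2 * g⁻¹ * t2) * t2 := by group
        _ = t2 := by rw [hprod, one_mul]
    calc g * t2 = (g * t2 * g⁻¹) * g := by group
      _ = t2 * g := by rw [e]
  have hR : h • R1 = R2 := by
    rcases i1 t2 g n2 hgc with h | h
    · rw [← hg, h, one_smul]
    · rw [← hg, h, s1']
  ext a
  rw [mem1, mem2, hR]

end Pool.Agent.E8helper90.PC
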